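import Mathlib

set_option autoImplicit false

/-!
For every prime `p` the blocking set `B = {(1, x, x^p)} ∪ {(0, 1, y) : y^(p^2+p+1) = 1}` of
`PG(2, p^3)` has a projective image disjoint from it.

For `p = 2` the map `(z₀, z₁, z₂) ↦ (z₂, z₁, α z₀)`, `α ≠ 0, 1`, works. For `p ≥ 3` we use the maps
`(z₀, z₁, z₂) ↦ (z₁, z₀, d z₂ - ε z₀)`. They work if `-ε` does not have norm `1` and `d ≠ 0` is not a
value of `h(s) = s^(2p-1) + ε s^p`, `s ≠ 0`. Such a `d` exists if `h` is not injective on `F \ {0}`,
and `h t = h 1` holds for `-ε = (t^(2p-1) - 1) / (t - 1)^p`. It remains to find `t` with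
`N(t^(2p-1) - 1) ≠ N(t - 1)`, and this is done by comparing the degree of a nonzero polynomial with
the number of its zeros.
-/

namespace Pool.Agent.Results.MP_837a86_co.DisjointForAllPrimes

open scoped LinearAlgebra.Projectivization

/-- The point set `B` of the projective plane over `F` (for `F` with `p ^ 3` elements): the points
`(1, x, x ^ p)` and the points `(0, 1, y)` with `y ^ (p ^ 2 + p + 1) = 1`. -/
def B (p : ℕ) (F : Type*) [Field F] : Set (ℙ F (Fin 3 → F)) :=
  {P | ∃ (x : F) (h : (![1, x, x ^ p] : Fin 3 → F) ≠ 0), P = Projectivization.mk F _ h} ∪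
  {P | ∃ (y : F) (h : (![0, 1, y] : Fin 3 → F) ≠ 0), y ^ (p ^ 2 + p + 1) = 1 ∧
    P = Projectivization.mk F _ h}

section
variable {F : Type*} [Field F] [Fintype F]

theorem exists_ne (Q : Polynomial F) (hQ : Q ≠ 0) (hd : Q.natDegree < Fintype.card F - 1) :
    ∃ t : F, t ≠ 0 ∧ Q.eval t ≠ 0 := by
  classical
  by_contra h
  push Not at h
  apply hQ
  refine Polynomial.eq_zero_of_natDegree_lt_card_of_eval_eq_zero' Q (Finset.univ.erase (0 : F))
    (fun i hi => h i (Finset.ne_of_mem_erase hi)) ?_
  rw [Finset.card_erase_of_mem (Finset.mem_univ _), Finset.card_univ]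
  exact hd

theorem exists_t (p : ℕ) (hp : p.Prime) (h3 : 3 ≤ p) (hF : Fintype.card F = p ^ 3) :
    ∃ t : F, t ≠ 0 ∧
      (t ^ (2 * p - 1) - 1) * (t ^ (2 * p ^ 2 - p) - 1) * (1 - t ^ (p ^ 2 - 2)) -
        t ^ (p ^ 2 - 2) * ((t - 1) * (t ^ p - 1) * (t ^ p ^ 2 - 1)) ≠ 0 := by
  rcases Nat.lt_or_ge p 5 with h5 | h5
  · -- `p = 3`
    have hp3 : p = 3 := by
      interval_cases p
      · rfl
      · exact absurd hp (by decide)
    subst hp3
    let Q : Polynomial F := Polynomial.X ^ 20 - Polynomial.X ^ 15 - Polynomial.X ^ 5 + 1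
      - Polynomial.X + Polynomial.X ^ 22 + Polynomial.X ^ 12 - Polynomial.X ^ 7
      - Polynomial.X ^ 7 * ((Polynomial.X - 1) * (Polynomial.X ^ 3 - 1) * (Polynomial.X ^ 9 - 1))
    have hQ0 : Q ≠ 0 := by
      intro h
      have := congrArg (Polynomial.eval 0) h
      simp [Q] at this
    have hQd : Q.natDegree < Fintype.card F - 1 := by
      have : Q.natDegree ≤ 22 := by
        show (Polynomial.X ^ 20 - Polynomial.X ^ 15 - Polynomial.X ^ 5 + 1
      - Polynomial.X + Polynomial.X ^ 22 + Polynomial.X ^ 12 - Polynomial.X ^ 7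
      - Polynomial.X ^ 7 * ((Polynomial.X - 1) * (Polynomial.X ^ 3 - 1) *
        (Polynomial.X ^ 9 - 1)) : Polynomial F).natDegree ≤ 22
        compute_degree
      rw [hF]
      omega
    obtain ⟨t, ht, hQt⟩ := exists_ne Q hQ0 hQd
    refine ⟨t, ht, ?_⟩
    have h26 : t ^ 26 = 1 := by
      have := FiniteField.pow_card_sub_one_eq_one t ht
      rwa [hF] at this
    have he : Q.eval t = (t ^ 20 - t ^ 15 - t ^ 5 + 1 - t + t ^ 22 + t ^ 12 - t ^ 7
      - t ^ 7 * ((t - 1) * (t ^ 3 - 1) * (t ^ 9 - 1))) := by
      simp [Q]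
    rw [he] at hQt
    intro h
    apply hQt
    norm_num at h
    linear_combination h + t * h26
  · let Q : Polynomial F := (Polynomial.X ^ (2 * p - 1) - 1) * (Polynomial.X ^ (2 * p ^ 2 - p) - 1) *
        (1 - Polynomial.X ^ (p ^ 2 - 2)) -
        Polynomial.X ^ (p ^ 2 - 2) * ((Polynomial.X - 1) * (Polynomial.X ^ p - 1) *
          (Polynomial.X ^ p ^ 2 - 1))
    have hpp : 5 * p ≤ p ^ 2 := by nlinarith
    have hQ0 : Q ≠ 0 := by
      intro h
      have := congrArg (Polynomial.eval 0) h
      have e1 : 2 * p - 1 ≠ 0 := by omega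
      have e2 : 2 * p ^ 2 - p ≠ 0 := by omega
      have e3 : p ^ 2 - 2 ≠ 0 := by omega
      simp [Q, e1, e2, e3] at this
    have hQd : Q.natDegree < Fintype.card F - 1 := by
      have d1 : (Polynomial.X ^ (2 * p - 1) - 1 : Polynomial F).natDegree ≤ 2 * p - 1 := by
        compute_degree
      have d2 : (Polynomial.X ^ (2 * p ^ 2 - p) - 1 : Polynomial F).natDegree ≤ 2 * p ^ 2 - p := by
        compute_degree
      have d3 : (1 - Polynomial.X ^ (p ^ 2 - 2) : Polynomial F).natDegree ≤ p ^ 2 - 2 := by
        compute_degree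
      have d4 : (Polynomial.X ^ (p ^ 2 - 2) : Polynomial F).natDegree ≤ p ^ 2 - 2 := by
        compute_degree
      have d5 : (Polynomial.X - 1 : Polynomial F).natDegree ≤ 1 := by
        compute_degree
      have d6 : (Polynomial.X ^ p - 1 : Polynomial F).natDegree ≤ p := by
        compute_degree
      have d7 : (Polynomial.X ^ p ^ 2 - 1 : Polynomial F).natDegree ≤ p ^ 2 := by
        compute_degree
      have a1 : ((Polynomial.X ^ (2 * p - 1) - 1) * (Polynomial.X ^ (2 * p ^ 2 - p) - 1) *
        (1 - Polynomial.X ^ (p ^ 2 - 2)) : Polynomial F).natDegree ≤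
          (2 * p - 1) + (2 * p ^ 2 - p) + (p ^ 2 - 2) :=
        Polynomial.natDegree_mul_le_of_le (Polynomial.natDegree_mul_le_of_le d1 d2) d3
      have a2 : (Polynomial.X ^ (p ^ 2 - 2) * ((Polynomial.X - 1) * (Polynomial.X ^ p - 1) *
          (Polynomial.X ^ p ^ 2 - 1)) : Polynomial F).natDegree ≤ (p ^ 2 - 2) + (1 + p + p ^ 2) :=
        Polynomial.natDegree_mul_le_of_le d4
          (Polynomial.natDegree_mul_le_of_le (Polynomial.natDegree_mul_le_of_le d5 d6) d7)
      have a3 := Polynomial.natDegree_sub_le_of_le a1 a2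
      have h1 : 5 * p ^ 2 ≤ p ^ 3 := by nlinarith [Nat.zero_le (p ^ 2)]
      refine lt_of_le_of_lt a3 ?_
      rw [hF]
      apply max_lt
      · omega
      · omega
    obtain ⟨t, ht, hQt⟩ := exists_ne Q hQ0 hQd
    refine ⟨t, ht, ?_⟩
    simpa [Q] using hQt

omit [Fintype F] in
theorem frob (p : ℕ) [Fact p.Prime] [CharP F p] (x : F) (k : ℕ) :
    (x - 1) ^ p ^ k = x ^ p ^ k - 1 := by
  rw [sub_pow_char_pow, one_pow]

omit [Fintype F] in
theorem norm_split (p : ℕ) [Fact p.Prime] [CharP F p] (x : F) :
    (x - 1) ^ (p ^ 2 + p + 1) = (x - 1) * (x ^ p - 1) * (x ^ p ^ 2 - 1) := by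
  have h1 : (x - 1) ^ p = x ^ p - 1 := by simpa using frob p x 1
  rw [pow_succ, pow_add, frob, h1]
  ring

/-- The pair `(ε, d)`. -/
theorem exists_pair (p : ℕ) (hp : p.Prime) (h3 : 3 ≤ p) (hF : Fintype.card F = p ^ 3) :
    ∃ ε d : F, (-ε) ^ (p ^ 2 + p + 1) ≠ 1 ∧ d ≠ 0 ∧
      ∀ s : F, s ≠ 0 → s ^ (2 * p - 1) + ε * s ^ p ≠ d := by
  classical
  have : Fact p.Prime := ⟨hp⟩
  have : CharP F p := charP_of_card_eq_prime_pow hF
  obtain ⟨t, ht, hQ⟩ := exists_t p hp h3 hF
  have ht1 : t ≠ 1 := by
    rintro rfl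
    apply hQ
    simp
  have hpos : 1 ≤ p ^ 3 := Nat.one_le_pow _ _ (by omega)
  have hcard : ∀ x : F, x ≠ 0 → x ^ (p ^ 3 - 1) = 1 := fun x hx => by
    have := FiniteField.pow_card_sub_one_eq_one x hx
    rwa [hF] at this
  have hfac : p ^ 3 - 1 = (p ^ 2 + p + 1) * (p - 1) := by
    obtain ⟨q, rfl⟩ : ∃ q, p = q + 1 := ⟨p - 1, by omega⟩
    simp only [Nat.add_sub_cancel]
    rw [Nat.sub_eq_iff_eq_add (Nat.one_le_pow _ _ (by omega))]
    ring
  set n := p ^ 2 + p + 1 with hn
  have hsq : 2 ≤ p ^ 2 := by nlinarith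
  -- the norms differ
  have hN : (t ^ (2 * p - 1) - 1) ^ n ≠ (t - 1) ^ n := by
    intro h
    apply hQ
    rw [hn, norm_split, norm_split] at h
    have e1 : (t ^ (2 * p - 1)) ^ p = t ^ (2 * p ^ 2 - p) := by
      rw [← pow_mul]
      congr 1
      rw [Nat.sub_mul]
      ring_nf
    have e2 : (t ^ (2 * p - 1)) ^ p ^ 2 * t ^ (p ^ 2 - 2) = 1 := by
      rw [← pow_mul, ← pow_add]
      have : (2 * p - 1) * p ^ 2 + (p ^ 2 - 2) = (p ^ 3 - 1) * 2 := by
        rw [Nat.sub_mul, Nat.sub_mul]
        have : 2 * p * p ^ 2 = 2 * p ^ 3 := by ring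
        have h5 : p ^ 2 ≤ p ^ 3 := Nat.pow_le_pow_right (by omega) (by norm_num)
        omega
      rw [this, pow_mul, hcard t ht, one_pow]
    rw [e1] at h
    have e3 : ((t ^ (2 * p - 1)) ^ p ^ 2 - 1) * t ^ (p ^ 2 - 2) = 1 - t ^ (p ^ 2 - 2) := by
      rw [sub_mul, e2, one_mul]
    have e4 := congrArg (fun z => z * t ^ (p ^ 2 - 2)) h
    simp only [mul_assoc] at e4
    rw [e3] at e4
    rw [sub_eq_zero]
    linear_combination e4
  set ε : F := -((t ^ (2 * p - 1) - 1) / (t - 1) ^ p) with hε
  have htm : t - 1 ≠ 0 := sub_ne_zero.mpr ht1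
  have hεn : (-ε) ^ n ≠ 1 := by
    intro h
    apply hN
    rw [hε, neg_neg, div_pow, div_eq_one_iff_eq (pow_ne_zero _ (pow_ne_zero _ htm))] at h
    rw [h, ← pow_mul, mul_comm, pow_mul]
    have e5 : ((t - 1) ^ n) ^ (p - 1) = 1 := by
      rw [← pow_mul, ← hfac]
      exact hcard _ htm
    have e6 : ((t - 1) ^ n) ^ p = ((t - 1) ^ n) ^ (p - 1) * (t - 1) ^ n := by
      rw [← pow_succ]
      congr 1
      omega
    rw [e6, e5, one_mul]
  have hh0 : ∀ s : F, s ≠ 0 → s ^ (2 * p - 1) + ε * s ^ p ≠ 0 := by
    intro s hs h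
    apply hεn
    have e7 : s ^ (2 * p - 1) = s ^ (p - 1) * s ^ p := by
      rw [← pow_add]
      congr 1
      omega
    have e8 : (s ^ (p - 1) + ε) * s ^ p = 0 := by
      rw [add_mul, ← e7, h]
    have e9 : s ^ (p - 1) + ε = 0 := (mul_eq_zero.mp e8).resolve_right (pow_ne_zero _ hs)
    have e10 : -ε = s ^ (p - 1) := by linear_combination -e9
    rw [e10, ← pow_mul, mul_comm, ← hfac]
    exact hcard s hs
  let f : Fˣ → Fˣ := fun s => Units.mk0 ((s : F) ^ (2 * p - 1) + ε * (s : F) ^ p) (hh0 s s.ne_zero)
  have hninj : ¬ Function.Injective f := by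
    intro hinj
    have h1 : f (Units.mk0 t ht) = f 1 := by
      apply Units.ext
      simp only [f, Units.val_mk0, Units.val_one, one_pow, mul_one]
      have e11 : (t - 1) ^ p = t ^ p - 1 := by simpa using frob p t 1
      have e12 : t ^ p - 1 ≠ 0 := by rw [← e11]; exact pow_ne_zero _ htm
      rw [hε, e11]
      field_simp
      ring
    have h2 := congrArg Units.val (hinj h1)
    simp at h2
    exact ht1 h2
  have hnsurj : ¬ Function.Surjective f := fun h => hninj (Finite.injective_iff_surjective.mpr h)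
  simp only [Function.Surjective, not_forall, not_exists] at hnsurj
  obtain ⟨d, hd⟩ := hnsurj
  refine ⟨ε, d, hεn, d.ne_zero, fun s hs h => hd (Units.mk0 s hs) ?_⟩
  apply Units.ext
  simpa [f] using h

end

/-- **Q1 for every prime.** Let `p` be a prime and let `F` be a field with `p ^ 3` elements. Then
there is an invertible `F`-linear map `g` of `F ^ 3` such that `B` is disjoint from its image under
the projectivity induced by `g`. -/
theorem result (p : ℕ) (hp : p.Prime) (F : Type*) [Field F] (hF : Nat.card F = p ^ 3) :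
    ∃ g : (Fin 3 → F) ≃ₗ[F] (Fin 3 → F),
      Disjoint (B p F) (Projectivization.map g.toLinearMap g.injective '' B p F) := by
  classical
  have hfin : Finite F := Nat.finite_of_card_ne_zero (by rw [hF]; exact pow_ne_zero _ hp.ne_zero)
  let _ := Fintype.ofFinite F
  have hF' : Fintype.card F = p ^ 3 := by rw [← Nat.card_eq_fintype_card, hF]
  rcases Nat.lt_or_ge p 3 with h3 | h3
  · -- `p = 2`
    have hp2 : p = 2 := by
      have := hp.two_le
      omega
    subst hp2
    -- an element different from `0` and `1`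
    obtain ⟨α, hα0, hα1⟩ : ∃ α : F, α ≠ 0 ∧ α ≠ 1 := by
      by_contra h
      push Not at h
      have hsub : (Finset.univ : Finset F) ⊆ {0, 1} := by
        intro x _
        rcases eq_or_ne x 0 with h0 | h0
        · simp [h0]
        · simp [h x h0]
      have hc := Finset.card_le_card hsub
      rw [Finset.card_univ, hF'] at hc
      have : ({0, 1} : Finset F).card ≤ 2 := Finset.card_le_two
      omega
    let g : (Fin 3 → F) ≃ₗ[F] (Fin 3 → F) :=
      { toFun := fun z => ![z 2, z 1, α * z 0]
        invFun := fun w => ![α⁻¹ * w 2, w 1, w 0]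
        map_add' := fun z w => by
          ext i
          fin_cases i <;> simp [mul_add]
        map_smul' := fun c z => by
          ext i
          fin_cases i <;> simp [mul_left_comm]
        left_inv := fun z => by
          ext i
          fin_cases i <;> simp [hα0]
        right_inv := fun z => by
          ext i
          fin_cases i <;> simp [hα0] }
    refine ⟨g, ?_⟩
    rw [Set.disjoint_left]
    rintro P hP ⟨Q, hQ, rfl⟩
    rcases hQ with ⟨x, hx, rfl⟩ | ⟨y, hy, hyn, rfl⟩
    · rcases hP with ⟨s, hs, h⟩ | ⟨s, hs, hsn, h⟩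
      · rw [Projectivization.map_mk, Projectivization.mk_eq_mk_iff'] at h
        obtain ⟨a, ha⟩ := h
        have h0 := congrFun ha 0
        have h1 := congrFun ha 1
        have h2 := congrFun ha 2
        simp [g] at h0 h1 h2
        -- `a = x ^ 2`, `a s = x`, `a s ^ 2 = α`
        apply hα1
        have hx0 : x ≠ 0 := by
          rintro rfl
          apply hα0
          rw [← h2, h0]
          simp
        have : x ^ 2 * α = x ^ 2 * 1 := by
          rw [← h2, ← h0]
          have : a * s * (a * s) = x * x := by rw [h1]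
          linear_combination this - h0
        exact mul_left_cancel₀ (pow_ne_zero 2 hx0) this
      · rw [Projectivization.map_mk, Projectivization.mk_eq_mk_iff'] at h
        obtain ⟨a, ha⟩ := h
        have h0 := congrFun ha 0
        have h1 := congrFun ha 1
        have h2 := congrFun ha 2
        simp [g] at h0 h1 h2
        -- `x ^ 2 = 0`, `a = x`, `a s = α`
        apply hα0
        rw [← h2, h1]
        have : x = 0 := by
          first
          | exact h0.symm
          | exact h0
          | simpa using h0.symm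
        rw [this, zero_mul]
    · rcases hP with ⟨s, hs, h⟩ | ⟨s, hs, hsn, h⟩
      · rw [Projectivization.map_mk, Projectivization.mk_eq_mk_iff'] at h
        obtain ⟨a, ha⟩ := h
        have h0 := congrFun ha 0
        have h1 := congrFun ha 1
        have h2 := congrFun ha 2
        simp [g] at h0 h1 h2
        -- `a = y`, `a s = 1`, `a s ^ 2 = 0`
        rcases h2 with h2 | h2
        · rw [h2, zero_mul] at h1
          exact zero_ne_one h1
        · rw [h2, mul_zero] at h1
          exact zero_ne_one h1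
      · rw [Projectivization.map_mk, Projectivization.mk_eq_mk_iff'] at h
        obtain ⟨a, ha⟩ := h
        have h0 := congrFun ha 0
        simp [g] at h0
        -- `0 = y`
        rw [← h0, zero_pow (by norm_num)] at hyn
        exact zero_ne_one hyn
  · obtain ⟨ε, d, hε, hd, hh⟩ := exists_pair p hp h3 hF'
    let g : (Fin 3 → F) ≃ₗ[F] (Fin 3 → F) :=
      { toFun := fun z => ![z 1, z 0, d * z 2 - ε * z 0]
        invFun := fun w => ![w 1, w 0, d⁻¹ * (w 2 + ε * w 1)]
        map_add' := fun z w => by
          ext i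
          fin_cases i <;> simp
          ring
        map_smul' := fun c z => by
          ext i
          fin_cases i <;> simp
          ring
        left_inv := fun z => by
          ext i
          fin_cases i <;> simp [hd]
        right_inv := fun z => by
          ext i
          fin_cases i <;> simp [hd] }
    refine ⟨g, ?_⟩
    rw [Set.disjoint_left]
    rintro P hP ⟨Q, hQ, rfl⟩
    rcases hQ with ⟨x, hx, rfl⟩ | ⟨y, hy, hyn, rfl⟩
    · rcases hP with ⟨s, hs, h⟩ | ⟨s, hs, hsn, h⟩
      · rw [Projectivization.map_mk, Projectivization.mk_eq_mk_iff'] at h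
        obtain ⟨a, ha⟩ := h
        have h0 := congrFun ha 0
        have h1 := congrFun ha 1
        have h2 := congrFun ha 2
        simp [g] at h0 h1 h2
        subst h0
        have hs0 : s ≠ 0 := by
          rintro rfl
          rw [mul_zero] at h1
          exact zero_ne_one h1
        apply hh s hs0
        have e1 : s ^ (2 * p - 1) = (a * s) * s ^ (2 * p - 1) := by rw [h1, one_mul]
        have e2 : (a * s) * s ^ (2 * p - 1) = (a * s ^ p) * s ^ p := by
          have : 2 * p - 1 = (p - 1) + p := by omega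
          rw [this, pow_add]
          have e3 : s ^ p = s ^ (p - 1) * s := by
            rw [← pow_succ]
            congr 1
            omega
          rw [mul_assoc, mul_assoc]
          congr 1
          rw [e3]
          ring
        have e4 : a ^ p * s ^ p = 1 := by rw [← mul_pow, h1, one_pow]
        rw [e1, e2, h2]
        linear_combination d * e4
      · rw [Projectivization.map_mk, Projectivization.mk_eq_mk_iff'] at h
        obtain ⟨a, ha⟩ := h
        have h0 := congrFun ha 0
        have h1 := congrFun ha 1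
        have h2 := congrFun ha 2
        simp [g] at h0 h1 h2
        apply hε
        rw [h1, one_mul, ← h0, zero_pow hp.ne_zero, mul_zero, zero_sub] at h2
        rw [← h2]
        exact hsn
    · rcases hP with ⟨s, hs, h⟩ | ⟨s, hs, hsn, h⟩
      · rw [Projectivization.map_mk, Projectivization.mk_eq_mk_iff'] at h
        obtain ⟨a, ha⟩ := h
        have h0 := congrFun ha 0
        have h1 := congrFun ha 1
        have h2 := congrFun ha 2
        simp [g] at h0 h1 h2
        have hs0 : s = 0 := by
          rcases h1 with h1 | h1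
          · rw [h0] at h1
            exact absurd h1 one_ne_zero
          · exact h1
        rw [hs0, zero_pow hp.ne_zero, mul_zero] at h2
        rcases mul_eq_zero.mp h2.symm with h3 | h3
        · exact hd h3
        · rw [h3, zero_pow (by positivity)] at hyn
          exact zero_ne_one hyn
      · rw [Projectivization.map_mk, Projectivization.mk_eq_mk_iff'] at h
        obtain ⟨a, ha⟩ := h
        have h0 := congrFun ha 0
        simp [g] at h0

end Pool.Agent.Results.MP_837a86_co.DisjointForAllPrimes
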